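import Mathlib
import Pool.Agent.W_93ab53_h82.Main

set_option autoImplicit false

/-!
Explicit two-sided bounds for the minimal integral of the squared Lagrange basis, for every `n`.

`LagMin.M n` is the infimum, over all systems of `n` distinct nodes in `[-1,1]`, of
`∫_{-1}^{1} ∑ l_k(t)^2 dt`, where the `l_k` are the Lagrange basis polynomials of the nodes.
-/

namespace Pool.Agent.Results.MP_93ab53_an.ExplicitBounds

/-- For every `n ≥ 1`: `2 - 4/n ≤ M(n) ≤ 2 - (2n-2)/(n(2n-1))`, and `2 - 3/n ≤ M(n)` for all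
`n ≥ 27`. -/
theorem result (n : ℕ) (hn : 1 ≤ n) :
    2 - 4 / (n : ℝ) ≤ LagMin.M n ∧
      (27 ≤ n → 2 - 3 / (n : ℝ) ≤ LagMin.M n) ∧
      LagMin.M n ≤ 2 - (2 * (n : ℝ) - 2) / (n * (2 * n - 1)) :=
  LagMin.main n hn

end Pool.Agent.Results.MP_93ab53_an.ExplicitBounds
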