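import Mathlib
import Pool.Agent.W_MP_93ab53_an.Main

set_option autoImplicit false

/-!
Sharp asymptotics of the minimal integral of the squared Lagrange basis (Erdos 1961).

`ErdosLag.M n` is the infimum, over all `n`-tuples of distinct nodes in `[-1,1]`, of
`∫_{-1}^{1} ∑ l_k(t)^2 dt`, where the `l_k` are the Lagrange basis polynomials.
-/

namespace Pool.Agent.Results.MP_93ab53_an.SharpAsymptotics

open Filter Topology

/-- `n (2 - M(n)) → Γ(1/4)² / (8 Γ(3/4)²) = 1.0942...`, that is,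
`M(n) = 2 - (c + o(1)) / n` with `c = Γ(1/4)² / (8 Γ(3/4)²)`. -/
theorem result :
    Tendsto (fun n : ℕ => (n : ℝ) * (2 - ErdosLag.M n)) atTop
      (𝓝 (Real.Gamma (1 / 4) ^ 2 / (8 * Real.Gamma (3 / 4) ^ 2))) :=
  ErdosLag.main

end Pool.Agent.Results.MP_93ab53_an.SharpAsymptotics
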